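import Mathlib

namespace Pool.Agent.H.MP_19024a

open Filter Topology Set
open scoped ContDiff

theorem exφ : ∃ φ p q : ℝ → ℝ, ContDiff ℝ ∞ φ ∧ (∀ r ≤ 2, φ r = 0) ∧ (∀ m r, p m * r - q m ≤ φ r) ∧
    (∀ m, p m * m - q m = φ m) ∧ (∀ m, 0 ≤ p m) ∧ ∀ c, ∃ m, c < p m := by
  let g : ℝ → ℝ := fun r => (r - 2) * Real.smoothTransition (r - 2)
  have g0 : ∀ r ≤ 2, g r = 0 := fun r h => by
    simp [g, Real.smoothTransition.zero_of_nonpos (sub_nonpos.2 h)]
  have g1 : ∀ r, 0 ≤ g r := fun r => (le_total r 2).elim (fun h => (g0 r h).ge) fun h =>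
    mul_nonneg (sub_nonneg.2 h) (Real.smoothTransition.nonneg _)
  have g2 : Monotone g := fun x y h => (le_total x 2).elim (fun a => (g0 x a).trans_le (g1 y))
    fun a => mul_le_mul (by linarith) (Real.smoothTransition.monotone (by linarith))
      (Real.smoothTransition.nonneg _) (by linarith)
  have g3 : ContDiff ℝ ∞ g := (contDiff_id.sub contDiff_const).mul
    (Real.smoothTransition.contDiff.comp (contDiff_id.sub contDiff_const))
  let φ : ℝ → ℝ := fun r => ∫ s in (2 : ℝ)..r, g s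
  have d : ∀ r, HasDerivAt φ (g r) r := fun r => (g3.continuous.integral_hasStrictDerivAt 2 r).hasDerivAt
  have e : deriv φ = g := funext fun r => (d r).deriv
  have c : ConvexOn ℝ univ φ := Monotone.convexOn_univ_of_deriv (fun r => (d r).differentiableAt)
    (e ▸ g2)
  refine ⟨φ, g, fun m => g m * m - φ m, contDiff_infty_iff_deriv.2
    ⟨fun r => (d r).differentiableAt, e ▸ g3⟩, fun r h => ?_, fun m r => ?_, fun m => by ring, g1,
    fun c => ⟨|c| + 3, ?_⟩⟩
  · simp only [φ]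
    rw [intervalIntegral.integral_congr (g := fun _ => 0) fun s hs => g0 s ?_]
    · simp
    · rw [uIcc_of_ge h] at hs
      exact hs.2
  · rcases lt_trichotomy m r with h | rfl | h
    · have := c.le_slope_of_hasDerivAt trivial trivial h (d m)
      rw [slope_def_field, le_div_iff₀ (sub_pos.2 h)] at this
      linarith
    · linarith
    · have := c.slope_le_of_hasDerivAt trivial trivial h (d m)
      rw [slope_def_field, div_le_iff₀ (sub_pos.2 h)] at this
      linarith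
  · simp only [g]
    rw [Real.smoothTransition.one_of_one_le (by linarith [abs_nonneg c])]
    linarith [le_abs_self c]

variable {X : Type} [NormedAddCommGroup X] [NormedSpace ℝ X]

theorem supN {J : Type} [Nonempty J] (w : J → X →L[ℝ] ℝ) {R : ℝ} (w1 : ∀ j z, w j z ≤ R * ‖z‖)
    (w2 : ∀ j, ∃ i, w i = -w j) : ∃ N : X → ℝ, (∀ x y, N (x + y) ≤ N x + N y) ∧
      (∀ (c : ℝ) x, N (c • x) = |c| * N x) ∧ ∀ z c, N z ≤ c ↔ ∀ j, w j z ≤ c := by
  let q : X → ℝ := fun z => ⨆ j, w j z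
  have q1 : ∀ z c, q z ≤ c ↔ ∀ j, w j z ≤ c := fun z c =>
    ciSup_le_iff ⟨_, forall_mem_range.2 fun j => w1 j z⟩
  have q2 : ∀ z j, w j z ≤ q z := fun z => (q1 z _).1 le_rfl
  have q4 : ∀ (c : ℝ) z, q (c • z) ≤ |c| * q z := fun c z => (q1 _ _).2 fun j => by
    rw [map_smul, smul_eq_mul]
    rcases le_total 0 c with h | h
    · rw [abs_of_nonneg h]
      exact mul_le_mul_of_nonneg_left (q2 z j) h
    · obtain ⟨i, hi⟩ := w2 j
      have := mul_le_mul_of_nonneg_left (q2 z i) (neg_nonneg.2 h)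
      rw [abs_of_nonpos h]
      simpa [hi] using this
  refine ⟨q, fun x y => (q1 _ _).2 fun j => ?_, fun c z => le_antisymm (q4 c z) ?_, q1⟩
  · rw [map_add]
    exact add_le_add (q2 _ _) (q2 _ _)
  · rcases eq_or_ne c 0 with rfl | h
    · simp [q]
    · have := mul_le_mul_of_nonneg_left (q4 c⁻¹ (c • z)) (abs_nonneg c)
      rwa [inv_smul_smul₀ h, ← mul_assoc, ← abs_mul, mul_inv_cancel₀ h, abs_one, one_mul] at this

theorem tal [CompleteSpace X] {Λ : Type} (a b : Λ → X →L[ℝ] ℝ) (σ : Λ ≃ Λ)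
    (a1 : ∀ l x, a l x ≤ ‖x‖) (b1 : ∀ l x, b l x ≤ 2 * ‖x‖) (a2 : ∀ l, a (σ l) = -a l)
    (b2 : ∀ l, b (σ l) = -b l) (c0 : ∀ x, ∀ ε > 0, {l | ε ≤ b l x}.Finite)
    (T : ∀ x, x ≠ 0 → ∃ l, a l x = ‖x‖ ∧ 0 < b l x) :
    ∃ N : X → ℝ, (∀ x y, N (x + y) ≤ N x + N y) ∧ (∀ (c : ℝ) x, N (c • x) = |c| * N x) ∧
      (∃ c C : ℝ, 0 < c ∧ ∀ x, c * ‖x‖ ≤ N x ∧ N x ≤ C * ‖x‖) ∧
      ∀ x, x ≠ 0 → ContDiffAt ℝ ∞ N x := by
  classical
  obtain ⟨φ, p, q, φ1, φ2, φ3, φ4, p0, p1⟩ := exφ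
  have q0 : ∀ m, 2 * p m ≤ q m := fun m => by linarith [φ3 m 2, φ2 2 le_rfl]
  have q1 : ∀ m, 0 ≤ q m := fun m => by linarith [q0 m, p0 m]
  have φ0 : ∀ r, 0 ≤ φ r := fun r => (le_total r 2).elim (fun h => (φ2 r h).ge) fun h => by
    nlinarith [φ3 2 r, φ4 2, φ2 2 le_rfl, p0 2]
  have S : ∀ j : Finset Λ × (Λ → ℝ), 0 < 1 + ∑ l ∈ j.1, q (j.2 l) := fun j =>
    add_pos_of_pos_of_nonneg one_pos (Finset.sum_nonneg fun _ _ => q1 _)
  have e : ∀ (j : Finset Λ × (Λ → ℝ)) z c, ((1 + ∑ l ∈ j.1, q (j.2 l))⁻¹ •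
      ∑ l ∈ j.1, (p (j.2 l) • b l + q (j.2 l) • a l)) z ≤ c ↔
      ∑ l ∈ j.1, (p (j.2 l) * b l z - q (j.2 l) * (c - a l z)) ≤ c := fun j z c => by
    simp only [_root_.smul_apply, _root_.sum_apply, _root_.add_apply, smul_eq_mul,
      inv_mul_le_iff₀ (S j), mul_sub, Finset.sum_sub_distrib, Finset.sum_add_distrib,
      ← Finset.sum_mul]
    constructor <;> intro <;> linarith
  obtain ⟨N, n1, n2, n3⟩ := supN (fun j : Finset Λ × (Λ → ℝ) => (1 + ∑ l ∈ j.1, q (j.2 l))⁻¹ •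
      ∑ l ∈ j.1, (p (j.2 l) • b l + q (j.2 l) • a l)) (R := 2) (fun j z => (e _ _ _).2
      ((Finset.sum_nonpos fun l _ => by
        nlinarith [mul_le_mul_of_nonneg_left (b1 l z) (p0 (j.2 l)), q1 (j.2 l), a1 l z,
          mul_le_mul_of_nonneg_right (q0 (j.2 l)) (norm_nonneg z)]).trans (by positivity)))
      fun j => ⟨(j.1.map σ.toEmbedding, j.2 ∘ σ.symm), by
        simp only [Finset.sum_map, Function.comp, Equiv.coe_toEmbedding, Equiv.symm_apply_apply, a2,
          b2, smul_neg, ← neg_add, Finset.sum_neg_distrib]⟩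
  simp only [e] at n3
  have up : ∀ x, N x ≤ 2 * ‖x‖ := fun z => (n3 _ _).2 fun j => (Finset.sum_nonpos fun l _ => by
    nlinarith [mul_le_mul_of_nonneg_left (b1 l z) (p0 (j.2 l)), q1 (j.2 l), a1 l z,
      mul_le_mul_of_nonneg_right (q0 (j.2 l)) (norm_nonneg z)]).trans (by positivity)
  have one : ∀ x l m, p m * b l x - q m * (N x - a l x) ≤ N x := fun x l m => by
    simpa using (n3 x _).1 le_rfl ({l}, fun _ => m)
  obtain ⟨m, hm⟩ := p1 0
  have qm : 0 < q m := by linarith [q0 m]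
  refine ⟨N, n1, n2, ⟨q m / (1 + q m), 2, by positivity, fun x => ⟨?_, up x⟩⟩, fun x x0 => ?_⟩
  · rcases eq_or_ne x 0 with rfl | h
    · simpa using (n3 0 _).1 le_rfl (∅, 0)
    · obtain ⟨l, h1, h2⟩ := T x h
      rw [div_mul_eq_mul_div, div_le_iff₀ (by positivity)]
      nlinarith [one x l m, mul_pos hm h2]
  have u0 : ‖x‖ < N x := by
    obtain ⟨l, h1, h2⟩ := T x x0
    obtain ⟨m, hm⟩ := p1 (N x / b l x)
    rw [div_lt_iff₀ h2] at hm
    by_contra! h
    nlinarith [one x l m, q1 m]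
  have Nc : Continuous N := (LipschitzWith.of_le_add_mul 2 fun x y => by
    have := n1 y (x - y)
    rw [add_sub_cancel] at this
    exact this.trans (by simpa [dist_eq_norm] using up (x - y))).continuous
  set L := (c0 x _ (sub_pos.2 u0)).toFinset
  let Φ : X × ℝ → ℝ := fun v => ∑ l ∈ L, (v.2 - a l v.1) * φ (b l v.1 / (v.2 - a l v.1)) - v.2
  have t1 : ∀ m t u, 0 < u → p m * t - q m * u ≤ u * φ (t / u) := fun m t u h => by
    have := mul_le_mul_of_nonneg_left (φ3 m (t / u)) h.le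
    rwa [mul_sub, mul_left_comm, mul_div_cancel₀ _ h.ne', mul_comm u] at this
  have t2 : ∀ t u, 0 < u → p (t / u) * t - q (t / u) * u = u * φ (t / u) := fun t u h => by
    rw [← φ4, mul_sub, mul_left_comm, mul_div_cancel₀ _ h.ne', mul_comm u]
  have G : ∀ᶠ v : X × ℝ in 𝓝 (x, N x), ‖v.1‖ < v.2 ∧
      N x - ‖x‖ + 2 * ‖v.1 - x‖ < 2 * (v.2 - ‖v.1‖) :=
    .and (ContinuousAt.eventually_lt (by fun_prop) (by fun_prop) u0)
      (ContinuousAt.eventually_lt (by fun_prop) (by fun_prop) (by simp; linarith))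
  have K : ∀ᶠ v : X × ℝ in 𝓝 (x, N x), (N v.1 ≤ v.2 ↔ Φ v ≤ 0) := G.mono fun v ⟨h1, h2⟩ => by
    have u : ∀ l, 0 < v.2 - a l v.1 := fun l => by linarith [a1 l v.1]
    rw [n3, sub_nonpos]
    refine ⟨fun h => ?_, fun h j => le_trans ?_ h⟩
    · exact (Finset.sum_congr rfl fun l _ => (t2 _ _ (u l)).symm).trans_le
        (h (L, fun l => b l v.1 / (v.2 - a l v.1)))
    · refine (Finset.sum_le_sum fun l _ => t1 _ _ _ (u l)).trans
        ((Finset.sum_le_sum_of_subset_of_nonneg (Finset.subset_union_left (s₂ := L)) fun l _ _ =>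
          mul_nonneg (u l).le (φ0 _)).trans
          (Finset.sum_subset Finset.subset_union_right fun l _ n => ?_).ge)
      have := b1 l (v.1 - x)
      rw [map_sub] at this
      rw [φ2 _ ((div_le_iff₀ (u l)).2 (by
        linarith [a1 l v.1, show b l x + ‖x‖ < N x by simpa [L] using n])), mul_zero]
  have D : ∀ᶠ v : X × ℝ in 𝓝 (x, N x), ContDiffAt ℝ ∞ Φ v := G.mono fun v h => by
    refine (ContDiffAt.sum fun l _ => ContDiffAt.mul (by fun_prop) (φ1.contDiffAt.comp v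
      (ContDiffAt.div (by fun_prop) (by fun_prop) ?_))).sub contDiffAt_snd
    linarith [a1 l v.1, h.1]
  have Z : ∀ᶠ v : X × ℝ in 𝓝 (x, N x), v.2 = N v.1 → Φ v = 0 := by
    filter_upwards [D, K.eventually_nhds] with v d k h
    refine le_antisymm (k.self_of_nhds.1 h.ge) (not_lt.1 fun n => ?_)
    have t : Tendsto (fun r : ℝ => (v.1, r)) (𝓝[<] v.2) (𝓝 v) :=
      (Continuous.tendsto' (by fun_prop) _ _ rfl).mono_left nhdsWithin_le_nhds
    obtain ⟨r, ⟨h1, h2⟩, h3⟩ := ((t.eventually (k.and (d.continuousAt.eventually_lt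
      continuousAt_const n))).and self_mem_nhdsWithin).exists
    exact (h1.2 h2.le).not_gt (h ▸ h3)
  have d := D.self_of_nhds
  have i : (fderiv ℝ Φ (x, N x) ∘L .inr ℝ X ℝ).IsInvertible := by
    set A := fderiv ℝ Φ (x, N x) ∘L .inr ℝ X ℝ
    have h : HasDerivAt (fun r => Φ (x, r)) (A 1) (N x) :=
      ((d.differentiableAt (by simp)).hasFDerivAt.comp (N x) (hasFDerivAt_prodMk_right x _)).hasDerivAt
    have k : A 1 ≤ -1 := le_of_tendsto h.tendsto_slope_zero_right (eventually_nhdsWithin_of_forall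
      fun s (hs : 0 < s) => by
        rw [smul_eq_mul, inv_mul_le_iff₀ hs]
        have := Finset.sum_le_sum (s := L) fun l _ => (t2 (b l x) (N x + s - a l x)
          (by linarith [a1 l x])).ge.trans (le_trans (by nlinarith [q1 (b l x / (N x + s - a l x))])
            (t1 (b l x / (N x + s - a l x)) (b l x) (N x - a l x) (by linarith [a1 l x])))
        simp only [Φ]
        linarith)
    have k0 : A 1 ≠ 0 := by linarith
    have e : ∀ r, A r = r * A 1 := fun r => by rw [← smul_eq_mul, ← map_smul, smul_eq_mul, mul_one]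
    refine .of_inverse (g := (A 1)⁻¹ • .id ℝ ℝ) ?_ ?_ <;> ext <;> simp [k0]
  refine (d.contDiffAt_implicitFunction (by simp) i).congr_of_eventuallyEq ?_
  have t : Tendsto (fun y => (y, N y)) (𝓝 x) (𝓝 (x, N x)) := Continuous.tendsto (by fun_prop) _
  filter_upwards [t.eventually (Z.and (d.eventually_apply_eq_iff_implicitFunction (by simp) i))]
    with y h
  exact (h.2.1 ((h.1 rfl).trans (Z.self_of_nhds rfl).symm)).symm

end Pool.Agent.H.MP_19024a
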