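import Mathlib

namespace Pool.Agent.H.MP_19024a

open Filter Topology Set

def G : Type := {t : Set ℚ // ∀ A : Set ℚ, A.Nonempty → A ⊆ t → ∃ m ∈ A, ∀ a ∈ A, m ≤ a}

instance : PartialOrder G where
  le s t := (∀ a, a ∈ s.1 → a ∈ t.1) ∧ ∀ a b, a ∈ s.1 → b ∈ t.1 → b ∉ s.1 → a < b
  le_refl s := ⟨fun _ h => h, fun _ _ _ h h' => absurd h h'⟩
  le_trans r s t h k := ⟨fun a x => k.1 a (h.1 a x), fun a b x y z => by
    by_cases c : b ∈ s.1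
    · exact h.2 a b x c z
    · exact k.2 a b (h.1 a x) y c⟩
  le_antisymm s t h k := Subtype.ext (Set.ext fun a => ⟨h.1 a, k.1 a⟩)

def root : G := ⟨∅, fun _ ⟨_, h⟩ k => (k h).elim⟩

instance : Nonempty G := ⟨root⟩

theorem le_of {r s t : G} (h : r ≤ t) (k : s ≤ t) (e : ∀ a, a ∈ r.1 → a ∈ s.1) : r ≤ s :=
  ⟨e, fun a b x y z => h.2 a b x (k.1 b y) z⟩

theorem chain {r s t : G} (h : r ≤ t) (k : s ≤ t) : r ≤ s ∨ s ≤ r := by
  by_contra n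
  obtain ⟨n1, n2⟩ := not_or.1 n
  obtain ⟨a, a1⟩ := not_forall.1 fun e => n1 (le_of h k e)
  obtain ⟨b, b1⟩ := not_forall.1 fun e => n2 (le_of k h e)
  rw [Classical.not_imp] at a1 b1
  exact (h.2 a b a1.1 (k.1 b b1.1) b1.2).not_gt (k.2 b a b1.1 (h.1 a a1.1) a1.2)

theorem tooth (t : G) (a : ℚ) (h : ∀ b ∈ t.1, b < a) : ∃ u : G, t ⋖ u ∧ u.1 = insert a t.1 := by
  have n : a ∉ t.1 := fun x => (h a x).false
  let u : G := ⟨insert a t.1, fun A hA k => by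
    rcases eq_empty_or_nonempty (A ∩ t.1) with e | e
    · have : ∀ b ∈ A, b = a := fun b x =>
        (k x).resolve_right fun y => eq_empty_iff_forall_notMem.1 e b ⟨x, y⟩
      obtain ⟨m, hm⟩ := hA
      exact ⟨m, hm, fun b x => by rw [this m hm, this b x]⟩
    · obtain ⟨m, m1, m2⟩ := t.2 _ e fun a x => x.2
      exact ⟨m, m1.1, fun b x => (k x).elim (fun y => y ▸ (h m m1.2).le) fun y => m2 b ⟨x, y⟩⟩⟩
  have l : t ≤ u := ⟨fun b x => .inr x, fun b c x y z => y.resolve_right z ▸ h b x⟩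
  refine ⟨u, ⟨l.lt_of_ne fun k => n (k ▸ .inl rfl), fun v h1 h2 => ?_⟩, rfl⟩
  by_cases c : a ∈ v.1
  · exact h2.not_ge (le_of le_rfl h2.le fun b x => x.elim (· ▸ c) (h1.le.1 b))
  · exact h1.not_ge (le_of h2.le l fun b x => (h2.le.1 b x).resolve_left fun y => c (y ▸ x))

theorem nxt {t s : G} (h : t < s) :
    ∃ u a, t ⋖ u ∧ u ≤ s ∧ u.1 = insert a t.1 ∧ ∀ b ∈ t.1, b < a := by
  obtain ⟨m, m1, m2⟩ := s.2 (s.1 \ t.1) (by
    by_contra! e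
    exact h.not_ge (le_of le_rfl h.le fun a x => diff_eq_empty.1 e x)) diff_subset
  have k : ∀ b ∈ t.1, b < m := fun b x => h.le.2 b m x m1.1 m1.2
  obtain ⟨u, h1, h2⟩ := tooth t m k
  refine ⟨u, m, h1, ⟨fun a x => ?_, fun a b x y z => ?_⟩, h2, k⟩
  · rw [h2] at x
    exact x.elim (· ▸ m1.1) (h.le.1 a)
  · rw [h2] at x z
    have := not_or.1 z
    exact x.elim (fun x => x ▸ (m2 b ⟨y, this.2⟩).lt_of_ne' this.1) fun x => h.le.2 a b x y this.2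

theorem cov {r u v s : G} (h : r ⋖ u) (k : r ⋖ v) (h' : u ≤ s) (k' : v ≤ s) : u = v :=
  (chain h' k').elim (fun a => (k.eq_or_eq h.le a).resolve_left h.ne')
    fun a => ((h.eq_or_eq k.le a).resolve_left k.ne').symm

theorem br (s s' : G) : {r | ∃ u v, r ⋖ u ∧ r ⋖ v ∧ u ≤ s ∧ v ≤ s' ∧ u ≠ v}.Subsingleton := by
  have : ∀ r r' u v u' v', r ⋖ u → r ⋖ v → u ≤ s → v ≤ s' → u ≠ v → r' ⋖ u' → r' ⋖ v' → u' ≤ s →
      v' ≤ s' → r ≤ r' → r = r' := fun r r' u v u' v' a b c d e a' b' c' d' h => by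
    by_contra n
    have k : ∀ u s, r ⋖ u → u ≤ s → r' ≤ s → u ≤ r' := fun u s a c c' =>
      (chain c c').elim id fun x => ((a.eq_or_eq h x).resolve_left (Ne.symm n)).ge
    exact e (cov a b (k u s a c (a'.le.trans c')) (k v s' b d (b'.le.trans d')))
  rintro r ⟨u, v, a, b, c, d, e⟩ r' ⟨u', v', a', b', c', d', e'⟩
  exact (chain (a.le.trans c) (a'.le.trans c')).elim (this _ _ _ _ _ _ a b c d e a' b' c' d')
    fun h => (this _ _ _ _ _ _ a' b' c' d' e' a b c d h).symm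

open Classical in
noncomputable def idx (u : G) : ℕ :=
  if h : ∃ a, IsGreatest u.1 a then Encodable.encode h.choose else 0

theorem idx1 (s : G) (n : ℕ) : {t | ∃ u, t ⋖ u ∧ u ≤ s ∧ idx u = n}.Subsingleton := by
  have : ∀ t u : G, t ⋖ u → u ≤ s → ∃ a : ℚ, Encodable.encode a = idx u ∧
      ∀ b, b ∈ t.1 ↔ b ∈ s.1 ∧ b < a := fun t u h k => by
    obtain ⟨v, a, h1, h2, h3, h4⟩ := nxt h.lt
    obtain rfl := cov h1 h h2 le_rfl
    have g : IsGreatest v.1 a := h3 ▸ ⟨.inl rfl, fun b x => x.elim Eq.le fun y => (h4 b y).le⟩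
    refine ⟨a, by
      rw [idx, dif_pos ⟨a, g⟩]; exact congrArg _ (g.unique (Exists.choose_spec ⟨a, g⟩)), fun b =>
      ⟨fun x => ⟨k.1 b (h.le.1 b x), h4 b x⟩, fun x => by_contra fun y => ?_⟩⟩
    exact x.2.not_gt (k.2 a b g.1 x.1 (h3 ▸ not_or.2 ⟨x.2.ne, y⟩))
  rintro t ⟨u, a, b, c⟩ t' ⟨u', a', b', c'⟩
  obtain ⟨q, h1, h2⟩ := this t u a b
  obtain ⟨q', h3, h4⟩ := this t' u' a' b'
  obtain rfl := Encodable.encode_injective (h1.trans (c.trans (c'.symm.trans h3.symm)))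
  exact Subtype.ext (Set.ext fun x => (h2 x).trans (h4 x).symm)

def C (t : G) (b : ℚ) : Set G := {v | t ≤ v ∧ ∃ c < b, ∀ a ∈ v.1, a ≤ c}

theorem teeth {t s : G} {b : ℚ} (h : t ∈ C s b) :
    ∃ b' < b, {u | t ⋖ u ∧ u ∈ C u b'}.Infinite := by
  obtain ⟨c, c1, c2⟩ := h.2
  obtain ⟨b', h1, h2⟩ := exists_between c1
  choose u u1 u2 using fun a : Ioo c b' => tooth t a fun x y => (c2 x y).trans_lt a.2.1
  have := (Ioo_infinite h1).to_subtype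
  refine ⟨b', h2, infinite_of_injective_forall_mem (f := u) (fun x y e => Subtype.ext ?_)
    fun a => ⟨u1 a, le_rfl, a, a.2.2, fun x y => ?_⟩⟩
  · have : x.1 ∈ insert y.1 t.1 := by rw [← u2, ← e, u2]; exact .inl rfl
    exact this.resolve_right fun z => (c2 _ z).not_gt x.2.1
  · rw [u2] at y
    exact y.elim Eq.le fun z => ((c2 x z).trans_lt a.2.1).le

theorem lim (t : ℕ → G) (b : ℕ → ℚ) (h1 : Monotone t) (h2 : StrictAnti b)
    (h3 : ∀ n, t n ∈ C (t n) (b n)) : ∃ v, ∀ n, v ∈ C (t n) (b n) := by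
  have up : ∀ n m a b, a ∈ (t n).1 → b ∈ (t m).1 → b ∉ (t n).1 → a < b :=
    fun n m a b x y z => (h1 (le_max_left n m)).2 a b x ((h1 (le_max_right n m)).1 b y) z
  refine ⟨⟨{a | ∃ n, a ∈ (t n).1}, fun A ⟨a, ha⟩ k => ?_⟩, fun n => ⟨⟨fun a x => ⟨n, x⟩,
    fun a b x ⟨m, y⟩ z => up n m a b x y z⟩, b (n + 1), h2 n.lt_succ_self, fun a ⟨m, x⟩ => ?_⟩⟩
  · obtain ⟨n, hn⟩ := k ha
    obtain ⟨m, m1, m2⟩ := (t n).2 (A ∩ (t n).1) ⟨a, ha, hn⟩ fun a x => x.2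
    refine ⟨m, m1.1, fun b x => ?_⟩
    by_cases c : b ∈ (t n).1
    · exact m2 b ⟨x, c⟩
    · obtain ⟨l, hl⟩ := k x
      exact (up n l m b m1.2 hl c).le
  · obtain ⟨c, c1, c2⟩ := (h3 (max (n + 1) m)).2
    exact (c2 a ((h1 (le_max_right _ m)).1 a x)).trans (c1.le.trans (h2.antitone (le_max_left _ m)))

theorem sub {t s : G} {b b' : ℚ} (h : t ≤ s) (k : b' ≤ b) : C s b' ⊆ C t b :=
  fun _ ⟨x, c, y, z⟩ => ⟨h.trans x, c, y.trans_le k, z⟩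

end Pool.Agent.H.MP_19024a
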