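import Pool.Agent.H.MP_19024a.B

namespace Pool.Agent.H.MP_19024a

open Filter Topology Set
open scoped Classical

variable {Y : Type} [NormedAddCommGroup Y] [NormedSpace ℝ Y]

structure St (δ : G → Y →L[ℝ] ℝ) where
  w : Y
  a : ℝ
  t : G
  b : ℚ
  h1 : t ∈ C t b
  h2 : ∀ v ∈ C t b, δ v w = 0

theorem nosm [CompleteSpace Y] (e : G → Y) (δ : G → Y →L[ℝ] ℝ)
    (d1 : ∀ v s, δ v (e s) = if v ≤ s then 1 else 0) (d2 : ∀ v y, δ v y ≤ ‖y‖)
    (d3 : ∀ y, (∀ v, |δ v y| ≤ 1) → ‖y‖ ≤ 1) (N : Y → ℝ) (n1 : ∀ x y, N (x + y) ≤ N x + N y)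
    (n2 : ∀ (r : ℝ) x, N (r • x) = |r| * N x) {c K : ℝ} (c0 : 0 < c)
    (n0 : ∀ x, c * ‖x‖ ≤ N x ∧ N x ≤ K * ‖x‖) (n3 : ∀ x, x ≠ 0 → DifferentiableAt ℝ N x) :
    False := by
  have e1 : ∀ t v, ‖e v - e t‖ ≤ 1 := fun t v => d3 _ fun r => by
    rw [map_sub, d1, d1]
    split_ifs <;> simp
  have e2 : ∀ v, ‖e v‖ ≤ 1 := fun v => d3 _ fun r => by
    rw [d1]
    split_ifs <;> simp
  have nK : ∀ x r, ‖x‖ ≤ r → N x ≤ |K| * r := fun x r h =>
    (n0 x).2.trans (mul_le_mul (le_abs_self K) h (norm_nonneg _) (abs_nonneg _))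
  have AV : ∀ {t s b}, t ∈ C s b → ∀ y (α M : ℝ), M < N y → ∃ b' < b, ∃ u, t ⋖ u ∧ u ∈ C u b' ∧
      ∀ v ∈ C u b', M < N (y + α • (e v - e t)) := by
    intro t s b ht y α M hM
    obtain ⟨b', h1, h2⟩ := teeth ht
    by_contra! h
    choose! v v1 v2 using h b' h1
    obtain ⟨n, hn⟩ := exists_nat_gt (|K| * |α| / (N y - M))
    obtain ⟨T, T1, T2⟩ := h2.exists_subset_card_eq n
    have n0' : (0 : ℝ) < n := lt_of_le_of_lt (div_nonneg (by positivity) (by linarith)) hn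
    have k : ‖∑ u ∈ T, (e (v u) - e t)‖ ≤ 1 := d3 _ fun r => by
      have z0 : ∀ u ∈ T, ¬ u ≤ r → δ r (e (v u) - e t) = 0 := fun u a b => by
        have l := (v1 u (T1 a).1 (T1 a).2).1
        rw [map_sub, d1, d1, if_congr (Q := r ≤ t) ⟨fun x => ?_,
          fun x => x.trans ((T1 a).1.le.trans l)⟩ rfl rfl, sub_self]
        have y := (chain x l).resolve_right b
        exact (chain y (T1 a).1.le).elim id fun z => (((T1 a).1.eq_or_eq z y).resolve_right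
          fun w => b w.ge).le
      rw [map_sum]
      by_cases a : ∃ u ∈ T, u ≤ r
      · obtain ⟨u, a, a'⟩ := a
        rw [Finset.sum_eq_single_of_mem u a fun v b n => z0 v b fun b' =>
          n (cov (T1 b).1 (T1 a).1 b' a'), map_sub, d1, d1]
        split_ifs <;> simp
      · rw [Finset.sum_eq_zero fun u b => z0 u b fun b' => a ⟨u, b, b'⟩]
        simp
    have h1 := n1 (∑ u ∈ T, (y + α • (e (v u) - e t))) ((-α) • ∑ u ∈ T, (e (v u) - e t))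
    have h2 := (Finset.le_sum_of_subadditive N (by simpa using (n0 0).2) n1 T _).trans
      (Finset.sum_le_sum fun u a => v2 u (T1 a).1 (T1 a).2)
    rw [Finset.sum_const, T2, nsmul_eq_mul] at h2
    rw [show ∑ u ∈ T, (y + α • (e (v u) - e t)) + (-α) • ∑ u ∈ T, (e (v u) - e t) = (n : ℝ) • y by
      simp [Finset.sum_add_distrib, ← Finset.smul_sum, T2, Nat.cast_smul_eq_nsmul], n2, n2,
      abs_of_pos n0', abs_neg] at h1
    rw [div_lt_iff₀ (by linarith)] at hn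
    nlinarith [mul_le_mul_of_nonneg_left (nK _ _ k) (abs_nonneg α)]
  let x : St δ → G → Y := fun σ v => σ.w + σ.a • e v
  let L : St δ → ℝ := fun σ => sSup ((fun v => N (x σ v)) '' C σ.t σ.b)
  have L1 : ∀ σ, ∀ v ∈ C σ.t σ.b, N (x σ v) ≤ L σ := fun σ v h => le_csSup ⟨|K| * (‖σ.w‖ + |σ.a|), by
    rintro _ ⟨v, -, rfl⟩
    refine nK _ _ (norm_add_le_of_le le_rfl ?_)
    rw [norm_smul]
    exact mul_le_of_le_one_right (norm_nonneg _) (e2 v)⟩ ⟨v, h, rfl⟩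
  have L2 : ∀ σ M, M < L σ → ∃ v ∈ C σ.t σ.b, M < N (x σ v) := fun σ M h => by
    obtain ⟨_, ⟨v, a, rfl⟩, b⟩ := exists_lt_of_lt_csSup (.image _ ⟨σ.t, σ.h1⟩) h
    exact ⟨v, a, b⟩
  have xv : ∀ σ : St δ, ∀ v ∈ C σ.t σ.b, δ v (x σ v) = σ.a := fun σ v h => by
    simp [x, σ.h2 v h, d1]
  let R : St δ → St δ → Prop := fun σ τ => σ.t ≤ τ.t ∧ τ.b ≤ σ.b ∧ σ.a ≤ τ.a ∧
    L τ ≤ L σ + c / 2 * (τ.a - σ.a) ∧ ∀ v ∈ C τ.t τ.b, ‖x τ v - x σ v‖ ≤ τ.a - σ.a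
  have R0 : ∀ σ, R σ σ := fun σ => ⟨le_rfl, le_rfl, le_rfl, by simp, by simp⟩
  have R1 : ∀ σ τ υ, R σ τ → R τ υ → R σ υ := fun σ τ υ h k =>
    ⟨h.1.trans k.1, k.2.1.trans h.2.1, h.2.2.1.trans k.2.2.1, by linarith [h.2.2.2.1, k.2.2.2.1],
      fun v a => (norm_sub_le_norm_sub_add_norm_sub _ (x τ v) _).trans (by
        linarith [k.2.2.2.2 v a, h.2.2.2.2 v (sub k.1 k.2.1 a)])⟩
  have step : ∀ (k : ℕ) σ, ∃ τ, R σ τ ∧ τ.b < σ.b ∧ (∀ υ, R τ υ → υ.a ≤ τ.a + 1 / ((k : ℝ) + 1)) ∧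
      ∀ v ∈ C τ.t τ.b, ∃ h, ‖h‖ ≤ 2 * (1 / ((k : ℝ) + 1)) ∧ c / 2 * (1 / ((k : ℝ) + 1)) ≤
        N (x τ v + h) + N (x τ v - h) - 2 * N (x τ v) := fun k σ => by
    set η := 1 / ((k : ℝ) + 1)
    have η0 : 0 < η := by positivity
    have bd : BddAbove ((fun τ => τ.a) '' {τ | R σ τ}) := ⟨(L σ - c / 2 * σ.a) / (c / 2), by
      rintro _ ⟨τ, h, rfl⟩
      have := (mul_le_mul_of_nonneg_left ((xv τ _ τ.h1).ge.trans (d2 _ _)) c0.le).trans
        ((n0 _).1.trans (L1 τ _ τ.h1))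
      rw [le_div_iff₀ (half_pos c0)]
      linarith [h.2.2.2.1]⟩
    obtain ⟨_, ⟨τ, h, rfl⟩, h'⟩ := exists_lt_of_lt_csSup (.image _ ⟨σ, R0 σ⟩)
      (sub_lt_self (sSup ((fun τ => τ.a) '' {τ | R σ τ})) η0)
    have g : ∀ υ, R τ υ → υ.a ≤ τ.a + η := fun υ k => by
      linarith [le_csSup bd ⟨υ, R1 _ _ _ h k, rfl⟩]
    obtain ⟨t, t1, t2⟩ := L2 τ (L τ - c / 2 * η) (by linarith [mul_pos c0 η0])
    obtain ⟨b, b1, u, u1, u2, u3⟩ := AV t1 _ (τ.a - 2 * η) _ t2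
    have s1 := sub (t1.1.trans u1.le) b1.le
    let υ : St δ := ⟨τ.w - (2 * η) • e t, τ.a + 2 * η, u, b, u2, fun v a => by
      simp [τ.h2 v (s1 a), d1, (u1.lt.trans_le a.1).not_ge]⟩
    have q : ∀ v, x υ v = x τ v + (2 * η) • (e v - e t) := fun v => by simp only [x, υ]; module
    have nq : ∀ v, ‖(2 * η) • (e v - e t)‖ ≤ 2 * η := fun v => by
      rw [norm_smul, Real.norm_of_nonneg (by positivity)]
      exact mul_le_of_le_one_right (by positivity) (e1 _ _)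
    obtain ⟨t', t3, t4⟩ := L2 υ (L τ + c / 2 * (2 * η)) (not_le.1 fun n => by
      linarith [g υ ⟨t1.1.trans u1.le, b1.le, by simp [υ, η0.le], by simpa [υ] using n,
        fun v _ => by simpa [q, υ] using nq v⟩, show υ.a = τ.a + 2 * η from rfl])
    obtain ⟨b', b2, u', u4, u5, u6⟩ := AV t3 _ υ.a _ t4
    have s2 := sub (t3.1.trans u4.le) b2.le
    let ω : St δ := ⟨τ.w, τ.a, u', b', u5, fun v a => τ.h2 v (s1 (s2 a))⟩
    have r : R τ ω := ⟨t1.1.trans (u1.le.trans (t3.1.trans u4.le)), (b2.trans b1).le, le_rfl,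
      not_lt.1 fun n => by
        obtain ⟨v, a, b⟩ := L2 ω _ n
        exact b.not_ge (by simpa [ω] using L1 τ v (s1 (s2 a))), fun v _ => by simp [x, ω]⟩
    refine ⟨ω, R1 _ _ _ h r, (b2.trans b1).trans_le h.2.1, fun υ k => g υ (R1 _ _ _ r k),
      fun v a => ⟨_, nq v, ?_⟩⟩
    have h1 := u3 v (s2 a)
    have h2 := u6 v a
    rw [show x τ t + (τ.a - 2 * η) • (e v - e t) = x τ v - (2 * η) • (e v - e t) by
      simp only [x]; module] at h1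
    rw [show x υ t' + υ.a • (e v - e t') = x υ v by simp only [x]; module, q] at h2
    change _ ≤ N (x τ v + _) + N (x τ v - _) - 2 * N (x τ v)
    linarith [L1 τ v (s1 (s2 a))]
  choose f f1 f2 f3 f4 using step
  let σ : ℕ → St δ := fun n => Nat.rec (motive := fun _ => St δ)
    ⟨0, 1, root, 1, ⟨le_rfl, 0, one_pos, fun _ h => h.elim⟩, by simp⟩ f n
  have m : ∀ n k, n ≤ k → R (σ n) (σ k) := fun n k h =>
    Nat.le_induction (R0 _) (fun k _ a => R1 _ _ _ a (f1 k _)) k h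
  obtain ⟨v, hv⟩ := lim (fun n => (σ n).t) (fun n => (σ n).b) (fun n k h => (m n k h).1)
    (strictAnti_nat_of_succ_lt fun n => f2 n _) fun n => (σ n).h1
  have cs : ∀ n k, n ≤ k → dist (x (σ (n + 1)) v) (x (σ (k + 1)) v) ≤ 1 / ((n : ℝ) + 1) :=
    fun n k h => by
      have := m (n + 1) (k + 1) (by omega)
      rw [dist_comm, dist_eq_norm]
      exact (this.2.2.2.2 v (hv (k + 1))).trans (sub_le_iff_le_add'.2 (f3 n _ _ this))
  obtain ⟨z, hz⟩ := cauchySeq_tendsto_of_complete (cauchySeq_of_le_tendsto_0' _ cs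
    tendsto_one_div_add_atTop_nhds_zero_nat)
  have z1 : ∀ n, ‖x (σ (n + 1)) v - z‖ ≤ 1 / ((n : ℝ) + 1) := fun n => by
    rw [← dist_eq_norm]
    exact le_of_tendsto (tendsto_const_nhds.dist hz) ((eventually_ge_atTop n).mono (cs n))
  have z0 : (1 : ℝ) ≤ δ v z := ge_of_tendsto' (((δ v).continuous.tendsto z).comp hz) fun n => by
    rw [Function.comp, xv _ _ (hv (n + 1))]
    exact (m 0 (n + 1) (by simp)).2.2.1
  have D := (n3 z (by rintro rfl; simp at z0; linarith)).hasFDerivAt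
  obtain ⟨r, r0, hr⟩ := Metric.eventually_nhds_iff.1 (Asymptotics.isLittleO_iff.1 D.isLittleO
    (show 0 < c / 20 by positivity))
  obtain ⟨n, hn⟩ := exists_nat_one_div_lt (show 0 < r / 3 by positivity)
  obtain ⟨h, h1, h2⟩ := f4 n (σ n) v (hv (n + 1))
  have z2 := z1 n
  change _ ≤ N (x (σ (n + 1)) v + h) + N (x (σ (n + 1)) v - h) - 2 * N (x (σ (n + 1)) v) at h2
  have η0 : 0 < 1 / ((n : ℝ) + 1) := by positivity
  generalize x (σ (n + 1)) v = y at *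
  generalize 1 / ((n : ℝ) + 1) = η at *
  have k : ∀ y, ‖y - z‖ ≤ 3 * η → |N y - N z - fderiv ℝ N z (y - z)| ≤ c / 20 * (3 * η) :=
    fun y h => (hr (by rw [dist_eq_norm]; linarith)).trans (by gcongr)
  have k1 := k (y + h) (by rw [add_sub_right_comm]; linarith [norm_add_le (y - z) h])
  have k2 := k (y - h) (by rw [sub_right_comm]; linarith [norm_sub_le (y - z) h])
  have k3 := hr (y := y) (by rw [dist_eq_norm]; linarith)
  simp only [map_sub, map_add, Real.norm_eq_abs, abs_le] at k1 k2 k3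
  nlinarith [mul_pos c0 η0]

end Pool.Agent.H.MP_19024a
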