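import Pool.Agent.H.MP_19024a.A
import Pool.Agent.H.MP_19024a.C

namespace Pool.Agent.H.MP_19024a

open Filter Topology Set
open scoped ENNReal Classical ContDiff

abbrev V (P : Type) := lp (fun _ : P => ℝ) ∞

variable {P : Type}

noncomputable def ind (S : P → Prop) : V P := ⟨fun p => if S p then 1 else 0,
  memℓp_infty ⟨1, forall_mem_range.2 fun p => by split_ifs <;> simp⟩⟩

theorem co (v : V P) (p : P) : |v p| ≤ ‖v‖ := lp.norm_apply_le_norm ENNReal.top_ne_zero v p

noncomputable def ev (p : P) : V P →L[ℝ] ℝ :=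
  LinearMap.mkContinuous ⟨⟨fun v => v p, fun _ _ => rfl⟩, fun _ _ => rfl⟩ 1 fun v => by
    simpa using co v p

theorem ev_eq (p : P) (v : V P) : ev p v = v p := rfl

def E (s : G) : G × ℕ → Prop
  | (t, 0) => t ≤ s
  | (t, n + 1) => ∃ u, (t ⋖ u ∧ n ≤ idx u) ∧ u ≤ s

theorem Ele {s : G} : ∀ {p : G × ℕ}, E s p → p.1 ≤ s
  | (_, 0), h => h
  | (_, _ + 1), ⟨_, a, b⟩ => a.1.le.trans b

theorem Efin (s t : G) : {n | E s (t, n)}.Finite := by
  by_cases h : ∃ u, t ⋖ u ∧ u ≤ s
  · obtain ⟨u, a, b⟩ := h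
    refine (finite_Iic (idx u + 1)).subset ?_
    rintro (_ | n) h
    · simp
    · obtain ⟨v, c, d⟩ := h
      simpa [cov a c.1 b d] using c.2
  · refine (finite_singleton 0).subset ?_
    rintro (_ | n) k
    · simp
    · obtain ⟨v, c, d⟩ := k
      exact absurd ⟨v, c.1, d⟩ h

def D0 : Submodule ℝ (V (G × ℕ)) where
  carrier := {v | (∀ r, v (r, 0) = 0) ∧ ∀ᶠ p in cofinite, v p = 0}
  add_mem' h k := ⟨fun r => by simp [h.1, k.1], (h.2.and k.2).mono fun r a => by simp [a.1, a.2]⟩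
  zero_mem' := ⟨fun _ => rfl, .of_forall fun _ => rfl⟩
  smul_mem' c v h := ⟨fun r => by simp [h.1], h.2.mono fun r a => by simp [a]⟩

noncomputable def D : Submodule ℝ (V (G × ℕ)) := Submodule.span ℝ (range fun t => ind (E t)) ⊔ D0

theorem tnd {ι : Type} (l : Filter ι) (φ : ι → V (G × ℕ) →L[ℝ] ℝ) (ψ : V (G × ℕ) →L[ℝ] ℝ)
    (h : ∀ i v, |φ i v| ≤ 2 * ‖v‖) (h1 : ∀ s, Tendsto (fun i => φ i (ind (E s))) l (𝓝 (ψ (ind (E s)))))
    (h2 : ∀ v ∈ D0, Tendsto (fun i => φ i v) l (𝓝 (ψ v))) (v : D.topologicalClosure) :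
    Tendsto (fun i => φ i v) l (𝓝 (ψ v)) := by
  let S : Submodule ℝ (V (G × ℕ)) :=
    { carrier := {v | Tendsto (fun i => φ i v) l (𝓝 (ψ v))}
      add_mem' := fun a b => by simpa using Tendsto.add a b
      zero_mem' := by simpa using tendsto_const_nhds
      smul_mem' := fun c v a => by simpa using Tendsto.const_mul c a }
  refine Submodule.topologicalClosure_minimal (t := S) _ (sup_le (Submodule.span_le.2 ?_) h2)
    ((LipschitzWith.uniformEquicontinuous (fun i => φ i) 2 fun i =>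
      LipschitzWith.of_dist_le_mul fun x y => ?_).equicontinuous.isClosed_setOfPred_tendsto
      ψ.continuous) v.2
  · rintro _ ⟨s, rfl⟩
    exact h1 s
  · simpa [dist_eq_norm] using h i (x - y)

theorem ulim (U : Ultrafilter P) (τ : P → G) {s : G} (h : ∀ᶠ p in U, τ p ≤ s) :
    ∃ r, (∀ᶠ p in U, τ p ≤ r) ∧ ∀ s, (∀ᶠ p in U, τ p ≤ s) → r ≤ s := by
  have a : ∀ s, (∀ᶠ p in U, τ p ≤ s) → ∀ a, (∀ᶠ p in U, a ∈ (τ p).1) → a ∈ s.1 := fun s h a k =>
    (h.and k).exists.elim fun p x => x.1.1 a x.2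
  let r : G := ⟨{a | ∀ᶠ p in U, a ∈ (τ p).1}, fun A x y => s.2 A x fun b z => a s h b (y z)⟩
  have b : ∀ s, (∀ᶠ p in U, τ p ≤ s) → r ≤ s := fun s h => ⟨a s h, fun a b x y z =>
    (h.and (x.and (Ultrafilter.eventually_not.2 z))).exists.elim fun p k => k.1.2 a b k.2.1 y k.2.2⟩
  refine ⟨r, ?_, b⟩
  rcases eq_empty_or_nonempty (s.1 \ r.1) with e | e
  · exact h.mono fun p k => le_of k (b s h) fun a x => sdiff_eq_empty.1 e (k.1 a x)
  · obtain ⟨m, m1, m2⟩ := s.2 _ e sdiff_subset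
    exact (h.and (Ultrafilter.eventually_not.2 m1.2)).mono fun p k => le_of k.1 (b s h) fun a x =>
      by_contra fun y => (k.1.2 a m x m1.1 k.2).not_ge (m2 a ⟨k.1.1 a x, y⟩)

theorem tind {l : Filter P} {S : P → Prop} {Q : Prop} (h : ∀ᶠ p in l, (S p ↔ Q)) :
    Tendsto (fun p => ev p (ind S)) l (𝓝 (if Q then 1 else 0)) :=
  tendsto_const_nhds.congr' (h.mono fun _ a => if_congr a.symm rfl rfl)

theorem att (v : D.topologicalClosure) (h : v ≠ 0) : ∃ p, |v.1 p| = ‖v‖ := by
  have n := norm_pos_iff.2 h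
  have : ∀ k : ℕ, ∃ p, ‖v‖ - ‖v‖ / ((k : ℝ) + 1) < |v.1 p| ∨ ‖v‖ ≤ |v.1 p| := fun k => by
    by_contra! a
    refine absurd (lp.norm_le_of_forall_le (f := v.1) ((abs_nonneg _).trans (a (root, 0)).1)
      fun p => (a p).1) (not_le.2 (sub_lt_self ‖v‖ (by positivity)))
  choose p hp using this
  let U := (hyperfilter ℕ).map p
  have t : Tendsto (fun q => |ev q v.1|) U (𝓝 ‖v‖) := by
    have t : Tendsto (fun k : ℕ => ‖v‖ - ‖v‖ / ((k : ℝ) + 1)) (hyperfilter ℕ) (𝓝 ‖v‖) := by
      simpa using (tendsto_const_nhds.sub (tendsto_const_nhds.div_atTop (a := ‖v‖)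
        (tendsto_natCast_atTop_atTop.atTop_add (tendsto_const_nhds (x := (1 : ℝ)))))).mono_left
        Nat.hyperfilter_le_atTop
    exact tendsto_map'_iff.2 (tendsto_of_tendsto_of_tendsto_of_le_of_le t tendsto_const_nhds
      (fun k => (hp k).elim le_of_lt fun a => (sub_le_self _ (by positivity)).trans a)
      fun k => co _ _)
  have b : ∀ (q : G × ℕ) (v : V (G × ℕ)), |ev q v| ≤ 2 * ‖v‖ := fun q v =>
    (co v q).trans (by linarith [norm_nonneg v])
  rcases U.le_cofinite_or_eq_pure with c | ⟨q, c⟩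
  swap
  · rw [c] at t
    exact ⟨q, tendsto_nhds_unique (tendsto_pure_nhds (fun q => |ev q v.1|) q) t⟩
  have z : ∀ w ∈ D0, Tendsto (fun q => ev q w) U (𝓝 0) := fun w a =>
    tendsto_const_nhds.congr' ((a.2.filter_mono c).mono fun _ a => a.symm)
  by_cases a : ∃ s, ∀ᶠ q in U, E s q
  · obtain ⟨s, a⟩ := a
    obtain ⟨r, r1, r2⟩ := ulim U Prod.fst (a.mono fun _ => Ele)
    have k : ∀ᶠ q in U, E r q := by
      filter_upwards [a, r1, c ((Efin s r).image (r, ·)).compl_mem_cofinite]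
      rintro ⟨t, _ | n⟩ x y z
      · exact y
      · obtain ⟨u, x1, x2⟩ := x
        refine ⟨u, x1, (chain x2 (r2 s (a.mono fun _ => Ele))).elim id fun w => ?_⟩
        refine ((x1.1.eq_or_eq y w).resolve_left ?_).ge
        rintro rfl
        exact z ⟨n + 1, ⟨u, x1, x2⟩, rfl⟩
    refine ⟨(r, 0), tendsto_nhds_unique (tnd U ev (ev (r, 0)) b (fun s => tind ?_)
      (fun w a => by simpa [ev_eq, a.1] using z w a) v).abs t⟩
    by_cases x : r ≤ s
    · refine k.mono ?_
      rintro ⟨t, _ | n⟩ y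
      · exact iff_of_true (le_trans y x) x
      · exact iff_of_true (y.imp fun u a => ⟨a.1, a.2.trans x⟩) x
    · exact (Ultrafilter.eventually_not.2 fun y => x (r2 s (y.mono fun _ => Ele))).mono
        fun q y => iff_of_false y x
  · have := tendsto_nhds_unique (tnd U ev 0 b (fun s => by
      simpa using tind (Q := False) (l := U) (S := E s) (by
        simpa using Ultrafilter.eventually_not.2 fun y => a ⟨s, y⟩)) z v).abs t
    simp at this
    exact absurd this n.ne

noncomputable def sg (b : Bool) : ℝ := if b then 1 else -1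

theorem smooth : ∃ N : D.topologicalClosure → ℝ, (∀ x y, N (x + y) ≤ N x + N y) ∧
    (∀ (c : ℝ) x, N (c • x) = |c| * N x) ∧ (∃ c C : ℝ, 0 < c ∧ ∀ x, c * ‖x‖ ≤ N x ∧ N x ≤ C * ‖x‖) ∧
      ∀ x, x ≠ 0 → ContDiffAt ℝ ∞ N x := by
  have : CompleteSpace D.topologicalClosure := Submodule.topologicalClosure.completeSpace _
  let β : G × ℕ → V (G × ℕ) →L[ℝ] ℝ := fun p => (1 / 2 : ℝ) ^ p.2 • (ev p - ev (p.1, p.2 + 1))
  have β0 : ∀ p v, β p v = (1 / 2 : ℝ) ^ p.2 * (v p - v (p.1, p.2 + 1)) := fun _ _ => rfl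
  have β1 : ∀ p v, |β p v| ≤ 2 * ‖v‖ := fun p v => by
    rw [β0, abs_mul, abs_of_pos (by positivity)]
    exact (mul_le_of_le_one_left (abs_nonneg _) (pow_le_one₀ (by norm_num) (by norm_num))).trans
      ((abs_sub _ _).trans (by linarith [co v p, co v (p.1, p.2 + 1)]))
  have s1 : ∀ b (r : ℝ), sg b * r ≤ |r| := fun b r => by
    cases b <;> simp [sg, le_abs_self, neg_le_abs]
  have s2 : ∀ r : ℝ, ∃ b, sg b * r = |r| := fun r => (abs_choice r).elim
    (fun h => ⟨true, by simp [sg, h]⟩) fun h => ⟨false, by simp [sg, h]⟩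
  have s3 : ∀ b, sg (!b) = -sg b := fun b => by cases b <;> simp [sg]
  refine tal (Λ := (G × ℕ) × Bool × Bool)
    (fun l => sg l.2.1 • (ev l.1).comp D.topologicalClosure.subtypeL)
    (fun l => sg l.2.2 • (β l.1).comp D.topologicalClosure.subtypeL)
    (Function.Involutive.toPerm (fun l => (l.1, !l.2.1, !l.2.2)) fun l => by simp)
    (fun l x => (s1 _ _).trans (co x.1 _)) (fun l x => (s1 _ _).trans (β1 _ x.1))
    (fun l => by ext; simp [s3]) (fun l => by ext; simp [s3]) (fun x ε hε => ?_) fun x h => ?_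
  · have := tnd cofinite β 0 β1 (fun s => Metric.tendsto_nhds.2 fun ε hε => ?_) (fun v h => ?_) x
    · refine ((eventually_cofinite.1 (this.abs.eventually (gt_mem_nhds (a := ε)
        (by simpa using hε)))).prod finite_univ).subset fun l h =>
          ⟨not_lt.2 (le_trans h (s1 _ _)), trivial⟩
    · obtain ⟨N, hN⟩ := exists_pow_lt_of_lt_one hε (show (1 / 2 : ℝ) < 1 by norm_num)
      refine eventually_cofinite.2 ((((finite_singleton s).union ((finite_Iio N).biUnion
        fun n _ => (idx1 s n).finite)).prod (finite_Iio N)).subset ?_)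
      rintro ⟨t, n⟩ h
      simp only [mem_ofPred_eq, β0, ind, dist_eq_norm, _root_.zero_apply, sub_zero,
        not_lt, norm_mul, norm_pow] at h
      have a : n < N := not_le.1 fun a => by
        refine (h.trans (mul_le_of_le_one_right (by positivity) ?_)).not_gt
          ((pow_le_pow_of_le_one (by positivity) (by norm_num) a).trans_lt (by simpa using hN))
        split_ifs <;> simp
      have b : ¬ (E s (t, n) ↔ E s (t, n + 1)) := fun b => by
        simp [b] at h
        linarith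
      refine ⟨by_contra fun c => b ?_, a⟩
      simp only [mem_union, mem_singleton_iff, mem_iUnion, not_or, not_exists] at c
      refine ⟨fun x => ?_, fun x => ?_⟩
      · rcases n with _ | n
        · obtain ⟨u, -, y, z, -⟩ := nxt (lt_of_le_of_ne x c.1)
          exact ⟨u, ⟨y, zero_le⟩, z⟩
        · obtain ⟨u, y, z⟩ := x
          exact ⟨u, ⟨y.1, y.2.lt_of_ne fun w => c.2 n (n.lt_succ_self.trans a)
            ⟨u, y.1, z, w.symm⟩⟩, z⟩
      · rcases n with _ | n
        · exact Ele x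
        · exact x.imp fun u y => ⟨⟨y.1.1, (Nat.le_succ _).trans y.1.2⟩, y.2⟩
    · have i : Function.Injective fun p : G × ℕ => (p.1, p.2 + 1) := fun p q h => by
        simpa [Prod.ext_iff] using h
      exact tendsto_const_nhds.congr' ((h.2.and (i.tendsto_cofinite.eventually h.2)).mono
        fun p a => by simp [β0, a.1, a.2])
  · obtain ⟨⟨t, n⟩, k⟩ := att x h
    obtain ⟨m, k, k'⟩ : ∃ m, |x.1 (t, m)| = ‖x‖ ∧ x.1 (t, m) ≠ x.1 (t, m + 1) := by
      by_contra! a
      have := tnd atTop (fun m => ev (t, m)) 0 (fun q v => (co v _).trans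
        (by linarith [norm_nonneg v])) (fun s => tendsto_const_nhds.congr' (by
          rw [← Nat.cofinite_eq_atTop]
          exact mem_of_superset (Efin s t).compl_mem_cofinite fun m a => (if_neg a).symm))
        (fun v h => tendsto_const_nhds.congr' (by
          rw [← Nat.cofinite_eq_atTop]
          exact ((Prod.mk_right_injective t).tendsto_cofinite.eventually h.2).mono
            fun _ a => a.symm)) x
      refine (norm_pos_iff.2 h).ne' ((tendsto_nhds_unique (tendsto_const_nhds.congr'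
        ((eventually_ge_atTop n).mono fun m b => ?_)) this.abs).trans (by simp))
      exact (Nat.le_induction (P := fun m _ => |x.1 (t, m)| = ‖x‖) k
        (fun m _ b => a m b ▸ b) m b).symm
    obtain ⟨b, h1⟩ := s2 (x.1 (t, m))
    obtain ⟨b', h2⟩ := s2 (β (t, m) x.1)
    exact ⟨((t, m), b, b'), h1.trans k, lt_of_lt_of_eq (abs_pos.2 (mul_ne_zero (by positivity)
      (sub_ne_zero.2 k'))) h2.symm⟩

end Pool.Agent.H.MP_19024a
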