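import Pool.Agent.H.MP_19024a.D

namespace Pool.Agent.H.MP_19024a

open Filter Topology Set
open scoped ENNReal Classical ContDiff

theorem split {X Y : Type} [NormedAddCommGroup X] [NormedSpace ℝ X] [NormedAddCommGroup Y]
    [NormedSpace ℝ Y] (β : X →L[ℝ] Y) (d : Y → X) (b1 : ∀ z, ‖β z‖ ≤ ‖z‖)
    (lip : ∀ x y, ‖d x - d y‖ ≤ 2 * ‖x - y‖) (b2 : ∀ x, β (d x) = x) :
    ∃ f : X ≃ β.ker × Y, LipschitzWith 3 f ∧ LipschitzWith 3 f.symm := by
  refine ⟨⟨fun z => (⟨z - d (β z), by simp [b2]⟩, β z), fun p => p.1.1 + d p.2, fun z => by simp,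
    fun p => ?_⟩, LipschitzWith.of_dist_le_mul fun z w => ?_,
    LipschitzWith.of_dist_le_mul fun p q => ?_⟩
  · have : β p.1.1 = 0 := p.1.2
    ext1 <;> simp [this, b2]
  · have e1 := b1 (z - w)
    have e2 := lip (β z) (β w)
    have e3 := norm_sub_le (z - w) (d (β z) - d (β w))
    rw [map_sub] at e1
    rw [sub_sub_sub_comm] at e3
    simp only [dist_eq_norm, NNReal.coe_ofNat]
    exact max_le (e3.trans (by linarith)) (e1.trans (by linarith [norm_nonneg (z - w)]))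
  · have e1 := norm_add_le (p.1.1 - q.1.1) (d p.2 - d q.2)
    have e2 := lip p.2 q.2
    have e3 := le_max_left (dist p.1 q.1) (dist p.2 q.2)
    have e4 := le_max_right (dist p.1 q.1) (dist p.2 q.2)
    rw [← add_sub_add_comm] at e1
    rw [← Prod.dist_eq] at e3 e4
    rw [Subtype.dist_eq, dist_eq_norm] at e3
    rw [dist_eq_norm] at e4
    simp only [Equiv.coe_fn_symm_mk, dist_eq_norm (_ + _), NNReal.coe_ofNat]
    linarith

noncomputable def M (v : G → ℝ) (t : G) (n : ℕ) : ℝ :=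
  ⨆ u, if t ⋖ u ∧ n ≤ idx u then max (v u) 0 else 0

theorem Ml (v w : V G) (t : G) (n : ℕ) : M v t n ≤ M w t n + ‖v - w‖ := by
  have k : ∀ (v w : V G) u, max (v u) 0 ≤ max (w u) 0 + ‖v - w‖ := fun v w u =>
    max_le (by linarith [le_max_left (w u) 0, (le_abs_self _).trans (co (v - w) u),
      show (v - w) u = v u - w u from rfl]) (by positivity)
  refine ciSup_le fun u => le_trans ?_ (add_le_add (le_ciSup ⟨‖w‖, forall_mem_range.2 fun u => ?_⟩ u)
    le_rfl)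
  · split_ifs <;> simp [k]
  · split_ifs
    · simpa using k w 0 u
    · simp

noncomputable def L1 (v : V G) : G × ℕ → ℝ
  | (t, 0) => v t
  | (t, n + 1) => M v t n - M (-v) t n

theorem Ll (v w : V G) : ∀ p, |L1 v p - L1 w p| ≤ 2 * ‖v - w‖
  | (t, 0) => (co (v - w) t).trans (by linarith [norm_nonneg (v - w)])
  | (t, n + 1) => by
    have a := Ml w v t n
    have b := Ml (-v) (-w) t n
    have c := Ml (-w) (-v) t n
    rw [neg_sub_neg] at b c
    rw [norm_sub_rev] at a b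
    rw [lp.coeFn_neg, lp.coeFn_neg] at b c
    exact abs_le.2 ⟨by simp only [L1]; linarith, by simp only [L1]; linarith [Ml v w t n]⟩

noncomputable def L0 (v : V G) : V (G × ℕ) := ⟨L1 v, memℓp_infty ⟨2 * ‖v - 0‖ + |0|,
  forall_mem_range.2 fun p => (abs_sub_abs_le_abs_sub _ _ |>.trans (Ll v 0 p) |>
    sub_le_iff_le_add.1).trans (by rcases p with ⟨t, _ | n⟩ <;> simp [L1, M])⟩⟩

theorem L2 (v w : V G) : ‖L0 v - L0 w‖ ≤ 2 * ‖v - w‖ :=
  lp.norm_le_of_forall_le (by positivity) (Ll v w)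

theorem Meq {F : Finset G} {c : G → ℝ} {t : G} {n : ℕ}
    (k : ∀ s ∈ F, ∀ s' ∈ F, ∀ u v, t ⋖ u ∧ n ≤ idx u → t ⋖ v ∧ n ≤ idx v → u ≤ s → v ≤ s' → u = v) :
    M (fun r => ∑ s ∈ F, if r ≤ s then c s else 0) t n =
      max (∑ s ∈ F, if E s (t, n + 1) then c s else 0) 0 := by
  rw [M]
  by_cases a : ∃ u, (t ⋖ u ∧ n ≤ idx u) ∧ ∃ s ∈ F, u ≤ s
  · obtain ⟨u, a, s, hs, b⟩ := a
    rw [Finset.sum_congr rfl fun s' hs' => if_congr (P := E s' (t, n + 1)) (Q := u ≤ s')
      ⟨fun ⟨w, x, y⟩ => k s hs s' hs' u w a x b y ▸ y, fun x => ⟨u, a, x⟩⟩ rfl rfl]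
    have l : ∀ w, (if t ⋖ w ∧ n ≤ idx w then max (∑ s ∈ F, if w ≤ s then c s else 0) 0 else 0) ≤
        max (∑ s ∈ F, if u ≤ s then c s else 0) 0 := fun w => by
      split_ifs with x
      · by_cases y : w = u
        · rw [y]
        · rw [Finset.sum_eq_zero fun s' hs' => if_neg fun z => y (k s' hs' s hs w u x a z b)]
          simp
      · simp
    refine le_antisymm (ciSup_le l) (le_ciSup_of_le ⟨_, forall_mem_range.2 l⟩ u ?_)
    rw [if_pos a]
  · rw [Finset.sum_eq_zero (f := fun s => if E s (t, n + 1) then c s else 0) fun s hs =>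
      if_neg fun ⟨u, x, y⟩ => a ⟨u, x, s, hs, y⟩, max_self,
      iSup_congr (g := fun _ => 0) fun u => ?_, ciSup_const]
    split_ifs with x
    · rw [Finset.sum_eq_zero fun s hs => if_neg fun y => a ⟨u, x, s, hs, y⟩, max_self]
    · rfl

noncomputable def D' : Submodule ℝ (V G) := Submodule.span ℝ (range fun s => ind (· ≤ s))

theorem sm {P : Type} (S : G → P → Prop) (c : G →₀ ℝ) (p : P) :
    (c.sum fun i a => a • ind (S i)) p = ∑ s ∈ c.support, if S s p then c s else 0 := by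
  rw [Finsupp.sum, lp.coeFn_sum, Finset.sum_apply]
  simp [ind]

theorem L3 {v : V G} (h : v ∈ D') : L0 v ∈ D := by
  obtain ⟨c, rfl⟩ := Finsupp.mem_span_range_iff_exists_finsupp.1 h
  refine Submodule.mem_sup.2 ⟨_, Finsupp.mem_span_range_iff_exists_finsupp.2 ⟨c, rfl⟩, _ - _,
    ⟨fun r => sub_eq_zero.2 ((sm _ c r).trans (sm E c (r, 0)).symm), ?_⟩, add_sub_cancel _ _⟩
  have : ∀ᶠ p : G × ℕ in cofinite, ∀ s ∈ c.support, ∀ s' ∈ c.support, E s p → ∀ u v,
      p.1 ⋖ u → p.1 ⋖ v → u ≤ s → v ≤ s' → u = v :=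
    (eventually_all_finset _).2 fun s _ => (eventually_all_finset _).2 fun s' _ =>
      mem_of_superset ((br s s').finite.biUnion fun t _ =>
        (Efin s t).image (t, ·)).compl_mem_cofinite fun p a e u v b c d f => by_contra fun n =>
          a (mem_biUnion (x := p.1) ⟨u, v, b, c, d, f, n⟩ ⟨p.2, e, rfl⟩)
  refine this.mono ?_
  rintro ⟨t, _ | n⟩ k
  · exact sub_eq_zero.2 ((sm _ c t).trans (sm E c (t, 0)).symm)
  have k' : ∀ s ∈ c.support, ∀ s' ∈ c.support, ∀ u v, t ⋖ u ∧ n ≤ idx u → t ⋖ v ∧ n ≤ idx v →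
      u ≤ s → v ≤ s' → u = v := fun s a s' b u v x y z w => k s a s' b ⟨u, x, z⟩ u v x.1 y.1 z w
  have e : ∀ (S : G → Prop), ∑ s ∈ c.support, (if S s then -c s else 0) =
      -∑ s ∈ c.support, if S s then c s else 0 := fun S => by
    rw [← Finset.sum_neg_distrib]
    exact Finset.sum_congr rfl fun s _ => by split_ifs <;> simp
  refine sub_eq_zero.2 (Eq.trans ?_ (sm E c _).symm)
  change M _ t n - M _ t n = _
  rw [funext (sm (fun s r => r ≤ s) c), Meq k', show (-fun r => ∑ s ∈ c.support,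
    if r ≤ s then c s else 0) = _ from funext fun r => (e _).symm, Meq k', e,
    max_zero_sub_max_neg_zero_eq_self]

theorem lift : ∃ (β : D.topologicalClosure →L[ℝ] D'.topologicalClosure)
    (d : D'.topologicalClosure → D.topologicalClosure), (∀ z, ‖β z‖ ≤ ‖z‖) ∧
    (∀ x y, ‖d x - d y‖ ≤ 2 * ‖x - y‖) ∧ ∀ x, β (d x) = x := by
  have k := fun z : V (G × ℕ) => lp.norm_le_of_forall_le (f := (⟨fun t => z (t, 0), memℓp_infty
    ⟨_, forall_mem_range.2 fun t => co z (t, 0)⟩⟩ : V G)) (norm_nonneg z) fun t => co z (t, 0)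
  let R : V (G × ℕ) →L[ℝ] V G := LinearMap.mkContinuous ⟨⟨fun z => ⟨fun t => z (t, 0), memℓp_infty
    ⟨_, forall_mem_range.2 fun t => co z (t, 0)⟩⟩, fun _ _ => rfl⟩, fun _ _ => rfl⟩ 1
    fun z => (k z).trans_eq (one_mul _).symm
  have r : D.topologicalClosure ≤ D'.topologicalClosure.comap R.toLinearMap :=
    Submodule.topologicalClosure_minimal _ (sup_le (Submodule.span_le.2 (by
      rintro _ ⟨s, rfl⟩
      exact D'.le_topologicalClosure (Submodule.subset_span ⟨s, rfl⟩))) fun v h =>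
        Submodule.mem_comap.2 (by
        rw [show R.toLinearMap v = 0 from lp.ext (funext h.1)]
        exact zero_mem _)) (D'.isClosed_topologicalClosure.preimage R.continuous)
  exact ⟨(R.comp D.topologicalClosure.subtypeL).codRestrict
    D'.topologicalClosure fun x => r x.2, fun y => ⟨L0 y, map_mem_closure
      (LipschitzWith.of_dist_le_mul (K := 2) fun x y => by
        simpa [dist_eq_norm] using L2 x y).continuous y.2 fun _ => L3⟩,
    fun z => k z.1, fun x y => L2 x.1 y.1, fun _ => rfl⟩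

def Eqv {X : Type} [NormedAddCommGroup X] [NormedSpace ℝ X] (N : X → ℝ) : Prop :=
  (∀ x y, N (x + y) ≤ N x + N y) ∧ (∀ (c : ℝ) x, N (c • x) = |c| * N x) ∧
    ∃ c C : ℝ, 0 < c ∧ ∀ x, c * ‖x‖ ≤ N x ∧ N x ≤ C * ‖x‖

theorem rough (N : D'.topologicalClosure → ℝ) (h : Eqv N)
    (k : ∀ x, x ≠ 0 → DifferentiableAt ℝ N x) : False := by
  have : CompleteSpace D'.topologicalClosure := Submodule.topologicalClosure.completeSpace _
  obtain ⟨n1, n2, c, K, c0, n0⟩ := h
  exact nosm (fun s => ⟨ind (· ≤ s), D'.le_topologicalClosure (Submodule.subset_span ⟨s, rfl⟩)⟩)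
    (fun v => (ev v).comp D'.topologicalClosure.subtypeL) (fun _ _ => rfl)
    (fun v y => (le_abs_self _).trans (co y.1 v))
    (fun y h => lp.norm_le_of_forall_le (f := y.1) zero_le_one h) N n1 n2 c0 n0 k

theorem gen {X Y : Type} [NormedAddCommGroup X] [NormedSpace ℝ X] [CompleteSpace X]
    [NormedAddCommGroup Y] [NormedSpace ℝ Y] [CompleteSpace Y] (β : X →L[ℝ] Y) (d : Y → X)
    (b1 : ∀ z, ‖β z‖ ≤ ‖z‖) (lip : ∀ x y, ‖d x - d y‖ ≤ 2 * ‖x - y‖) (b2 : ∀ x, β (d x) = x)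
    (r : ∀ N : Y → ℝ, Eqv N → (∀ x, x ≠ 0 → DifferentiableAt ℝ N x) → False) :
    ∃ (Z : Type) (_ : NormedAddCommGroup Z) (_ : NormedSpace ℝ Z) (_ : CompleteSpace Z) (f : X ≃ Z),
      LipschitzWith 3 f ∧ LipschitzWith 3 f.symm ∧
      ∀ N : Z → ℝ, Eqv N → (∀ x, x ≠ 0 → DifferentiableAt ℝ N x) → False := by
  obtain ⟨f, f1, f2⟩ := split β d b1 lip b2
  refine ⟨β.ker × Y, inferInstance, inferInstance, inferInstance, f, f1, f2,
    fun N ⟨n1, n2, c, K, c0, n0⟩ h => r (fun y => N (0, y)) ⟨fun x y => ?_, fun a x => ?_, c, K, c0,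
      fun x => ?_⟩ fun x a => (h (0, x) (by simpa using a)).comp x (by fun_prop)⟩
  · simpa using n1 (0, x) (0, y)
  · simpa using n2 a (0, x)
  · simpa using n0 (0, x)

theorem main : ∃ (X Y : Type) (_ : NormedAddCommGroup X) (_ : NormedSpace ℝ X) (_ : CompleteSpace X)
    (_ : NormedAddCommGroup Y) (_ : NormedSpace ℝ Y) (_ : CompleteSpace Y) (f : X ≃ Y),
    LipschitzWith 3 f ∧ LipschitzWith 3 f.symm ∧
    (∃ N : X → ℝ, Eqv N ∧ ∀ x, x ≠ 0 → ContDiffAt ℝ ∞ N x) ∧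
    ∀ N : Y → ℝ, Eqv N → (∀ x, x ≠ 0 → DifferentiableAt ℝ N x) → False := by
  have : CompleteSpace D.topologicalClosure := Submodule.topologicalClosure.completeSpace _
  have : CompleteSpace D'.topologicalClosure := Submodule.topologicalClosure.completeSpace _
  obtain ⟨β, d, b1, b2, b3⟩ := lift
  obtain ⟨Z, _, _, _, f, f1, f2, f3⟩ := gen β d b1 b2 b3 rough
  obtain ⟨N, n1, n2, n3, n4⟩ := smooth
  exact ⟨D.topologicalClosure, Z, inferInstance, inferInstance, inferInstance, inferInstance,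
    inferInstance, inferInstance, f, f1, f2, ⟨N, ⟨n1, n2, n3⟩, n4⟩, f3⟩

end Pool.Agent.H.MP_19024a
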